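import Pool.Agent.Liou.SEC
import Pool.Agent.Liou.GROSS
import Pool.Agent.Liou.SEP
import Pool.Agent.Liou.LEN
import Pool.Agent.Liou.VAR
import Pool.Agent.Liou.KEY
import Pool.Agent.Liou.TRI
import Pool.Agent.Liou.PERS
import Pool.Agent.Liou.NEAR
import Pool.Agent.Liou.TWO
import Pool.Agent.Liou.ONE
import Pool.Agent.Liou.CONST
import Pool.Agent.Liou.INJBUB
import Pool.Agent.Liou.EXP
import Pool.Agent.Liou.HOL
import Pool.Agent.Liou.ODE
import Pool.Agent.Liou.DEV
import Pool.Agent.Liou.ONEB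
import Pool.Agent.Liou.RADB
import Pool.Agent.Liou.DIAM1
import Pool.Agent.Liou.DIAMR
import Pool.Agent.Liou.MAIN

/-!
# Diameter `π` rigidity for conformal metrics which solve the Liouville equation

For every `C²` solution `u` of `Δ u + e^{2u} = 0` on `ℝ²`, the metric `g = e^{2u} δ` has diameter
`π` if and only if `u` is radial up to translation or one-dimensional.
-/

set_option autoImplicit false

namespace Pool.Agent.Results.MP_47dd70_an.DiameterPi

/-- the Euclidean plane `ℝ²` -/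
abbrev Plane : Type := EuclideanSpace ℝ (Fin 2)

/-- `u` is a solution of class `C²` of the Liouville equation `Δ u + e^{2u} = 0` on `ℝ²` -/
def IsSolution (u : Plane → ℝ) : Prop :=
  ContDiff ℝ 2 u ∧ ∀ x, Laplacian.laplacian u x + Real.exp (2 * u x) = 0

/-- `γ`, restricted to `[0,1]`, is a (continuous) piecewise `C¹` curve from `x` to `y` -/
def IsPath (γ : ℝ → Plane) (x y : Plane) : Prop :=
  γ 0 = x ∧ γ 1 = y ∧ ContinuousOn γ (Set.Icc 0 1) ∧
    ∃ (n : ℕ) (s : ℕ → ℝ), s 0 = 0 ∧ s n = 1 ∧ (∀ i < n, s i < s (i + 1)) ∧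
      ∀ i < n, ContDiffOn ℝ 1 γ (Set.Icc (s i) (s (i + 1)))

/-- the length of the curve `γ : [0,1] → ℝ²` in the metric `g = e^{2u} δ` -/
noncomputable def pathLength (u : Plane → ℝ) (γ : ℝ → Plane) : ℝ :=
  ∫ t in (0 : ℝ)..1, Real.exp (u (γ t)) * ‖deriv γ t‖

/-- the length distance of `g = e^{2u} δ` -/
noncomputable def lengthDist (u : Plane → ℝ) (x y : Plane) : ℝ :=
  sInf {L : ℝ | ∃ γ : ℝ → Plane, IsPath γ x y ∧ L = pathLength u γ}

/-- the diameter of `(ℝ², g)`, in `[0,∞]` -/
noncomputable def diameter (u : Plane → ℝ) : ENNReal :=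
  ⨆ x : Plane, ⨆ y : Plane, ENNReal.ofReal (lengthDist u x y)

/-- `u` is radial up to translation -/
def RadialUpToTranslation (u : Plane → ℝ) : Prop :=
  ∃ (x₀ : Plane) (φ : ℝ → ℝ), ∀ x, u x = φ ‖x - x₀‖

/-- `u` is one-dimensional -/
def OneDimensional (u : Plane → ℝ) : Prop :=
  ∃ e : Plane, ‖e‖ = 1 ∧ ∃ f : ℝ → ℝ, ∀ x, u x = f (inner ℝ x e)

/-! ### the identification of `ℂ` with the plane -/

/-- the isometry `x + i y ↦ (x, y)` -/
noncomputable def iso : ℂ ≃ₗᵢ[ℝ] Plane := Complex.orthonormalBasisOneI.repr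

theorem isSol_comp {u : Plane → ℝ} (h : IsSolution u) : Liou.IsSol (fun z => u (iso z)) where
  smooth := h.1.comp iso.contDiff
  eq := by
    intro z
    have h1 := h.2 (iso z)
    have h2 : Laplacian.laplacian (fun z => u (iso z)) z = Laplacian.laplacian u (iso z) := by
      have e1 := congrFun (InnerProductSpace.laplacian_eq_iteratedFDeriv_orthonormalBasis
        (fun z => u (iso z)) Complex.orthonormalBasisOneI) z
      have e2 := congrFun (InnerProductSpace.laplacian_eq_iteratedFDeriv_orthonormalBasis u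
        (Complex.orthonormalBasisOneI.map iso)) (iso z)
      have e3 : iteratedFDeriv ℝ 2 (fun z => u (iso z)) z =
          (iteratedFDeriv ℝ 2 u (iso z)).compContinuousLinearMap
            (fun _ => (iso.toContinuousLinearEquiv : ℂ →L[ℝ] Plane)) := by
        have := (iso.toContinuousLinearEquiv : ℂ →L[ℝ] Plane).iteratedFDeriv_comp_right h.1 z
          (i := 2) le_rfl
        exact this
      rw [e1, e2]
      refine Finset.sum_congr rfl fun i _ => ?_
      rw [e3, ContinuousMultilinearMap.compContinuousLinearMap_apply]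
      congr 1
      ext j
      fin_cases j <;> simp
    rw [h2]
    exact h1

theorem isPath_comp (γ : ℝ → ℂ) (x y : ℂ) :
    IsPath (fun t => iso (γ t)) (iso x) (iso y) ↔ Liou.IsCurve γ x y := by
  constructor
  · rintro ⟨h0, h1, h2, n, s, h3, h4, h5, h6⟩
    refine ⟨iso.injective h0, iso.injective h1, ?_, n, s, h3, h4, h5, fun i hi => ?_⟩
    · have := iso.symm.continuous.comp_continuousOn h2
      refine this.congr fun t _ => ?_
      simp
    · have := iso.symm.contDiff.comp_contDiffOn (h6 i hi)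
      refine this.congr fun t _ => ?_
      simp
  · rintro ⟨h0, h1, h2, n, s, h3, h4, h5, h6⟩
    refine ⟨congrArg iso h0, congrArg iso h1, iso.continuous.comp_continuousOn h2, n, s, h3, h4, h5,
      fun i hi => iso.contDiff.comp_contDiffOn (h6 i hi)⟩

theorem norm_deriv_comp (γ : ℝ → ℂ) (t : ℝ) : ‖deriv (fun t => iso (γ t)) t‖ = ‖deriv γ t‖ := by
  have h : fderiv ℝ (fun t => iso (γ t)) t =
      ((iso.toContinuousLinearEquiv : ℂ →L[ℝ] Plane)).comp (fderiv ℝ γ t) :=
    iso.toContinuousLinearEquiv.comp_fderiv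
  rw [← fderiv_apply_one_eq_deriv, ← fderiv_apply_one_eq_deriv, h]
  exact iso.norm_map _

theorem lengthDist_comp (u : Plane → ℝ) (x y : ℂ) :
    lengthDist u (iso x) (iso y) = Liou.gdist (fun z => u (iso z)) x y := by
  unfold lengthDist Liou.gdist
  congr 1
  ext L
  constructor
  · rintro ⟨γ, hγ, rfl⟩
    have e : γ = fun t => iso (iso.symm (γ t)) := by ext1 t; simp
    refine ⟨fun t => iso.symm (γ t), ?_, ?_⟩
    · rw [← isPath_comp, ← e]; exact hγ
    · conv_lhs => rw [e]
      unfold pathLength Liou.length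
      simp only [norm_deriv_comp]
  · rintro ⟨γ, hγ, rfl⟩
    refine ⟨fun t => iso (γ t), (isPath_comp γ x y).2 hγ, ?_⟩
    unfold pathLength Liou.length
    simp only [norm_deriv_comp]

theorem diameter_comp (u : Plane → ℝ) : diameter u = Liou.gdiam (fun z => u (iso z)) := by
  unfold diameter Liou.gdiam
  simp only [← lengthDist_comp]
  rw [← iso.surjective.iSup_comp]
  refine iSup_congr fun x => ?_
  rw [← iso.surjective.iSup_comp]

theorem radial_comp (u : Plane → ℝ) :
    RadialUpToTranslation u ↔ Liou.IsRadial (fun z => u (iso z)) := by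
  constructor
  · rintro ⟨x₀, φ, h⟩
    refine ⟨iso.symm x₀, φ, fun z => ?_⟩
    have : ‖iso z - x₀‖ = ‖z - iso.symm x₀‖ := by
      rw [← iso.norm_map (z - iso.symm x₀), map_sub, iso.apply_symm_apply]
    show u (iso z) = φ ‖z - iso.symm x₀‖
    rw [h, this]
  · rintro ⟨x₀, φ, h⟩
    refine ⟨iso x₀, φ, fun z => ?_⟩
    have h1 : u (iso (iso.symm z)) = φ ‖iso.symm z - x₀‖ := h (iso.symm z)
    rw [iso.apply_symm_apply] at h1
    rw [h1, ← iso.norm_map, map_sub, iso.apply_symm_apply]

theorem oneDim_comp (u : Plane → ℝ) :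
    OneDimensional u ↔ Liou.IsOneDim (fun z => u (iso z)) := by
  constructor
  · rintro ⟨e, he, f, h⟩
    refine ⟨iso.symm e, by rw [iso.symm.norm_map]; exact he, f, fun z => ?_⟩
    show u (iso z) = f (inner ℝ z (iso.symm e))
    rw [h, ← iso.inner_map_map, iso.apply_symm_apply]
  · rintro ⟨e, he, f, h⟩
    refine ⟨iso e, by rw [iso.norm_map]; exact he, f, fun z => ?_⟩
    have h1 : u (iso (iso.symm z)) = f (inner ℝ (iso.symm z) e) := h (iso.symm z)
    rw [iso.apply_symm_apply] at h1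
    rw [h1, ← iso.inner_map_map, iso.apply_symm_apply]

/-- the equivalence over `ℂ` -/
theorem main : Liou.T_MAIN := by
  have hGROSS := Liou.p_GROSS Liou.p_SEC
  have hSEP := Liou.p_SEP Liou.p_SEC
  have hVAR := Liou.p_VAR Liou.p_LIP Liou.p_LEN
  have hKEY := Liou.p_KEY Liou.p_SEC hGROSS hSEP hVAR
  have hTRI := Liou.p_TRI Liou.p_SEC hGROSS hKEY
  have hPERS := Liou.p_PERS Liou.p_UNI Liou.p_SEC Liou.p_STAR
  have hNEAR := Liou.p_NEAR Liou.p_SEC hTRI hPERS
  have hTWO := Liou.p_TWO Liou.p_SEC hTRI hNEAR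
  have hONE := Liou.p_ONE Liou.p_SEC hPERS hNEAR hTWO
  have hCONST := Liou.p_CONST Liou.p_SEC hTRI hNEAR hTWO
  have hBUB := Liou.p_BUB Liou.p_SEC Liou.p_INJ
  have hEXP := Liou.p_EXP Liou.p_SEC Liou.p_UNI hTRI Liou.p_INJ
  have hDEV := Liou.p_DEV Liou.p_HOL Liou.p_ODE
  have hRADB := Liou.p_RADB Liou.p_HOL hDEV
  have hDIAM1 := Liou.p_DIAM1 Liou.p_GLIP
  have hDIAMR := Liou.p_DIAMR Liou.p_LIP hDIAM1
  exact Liou.p_MAIN hDEV hONE hCONST hBUB hEXP Liou.p_ONEB hRADB hDIAM1 hDIAMR

/-- **Diameter `π` rigidity.** For every `C²` solution `u` of `Δ u + e^{2u} = 0` on `ℝ²`, the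
metric `e^{2u} δ` has diameter `π` if and only if `u` is radial up to translation or
one-dimensional. -/
theorem result (u : Plane → ℝ) (hu : IsSolution u) :
    diameter u = ENNReal.ofReal Real.pi ↔ RadialUpToTranslation u ∨ OneDimensional u := by
  rw [diameter_comp, radial_comp, oneDim_comp]
  exact main _ (isSol_comp hu)

end Pool.Agent.Results.MP_47dd70_an.DiameterPi
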